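import Mathlib

set_option autoImplicit false

namespace ES37

open Finset

/-- weighted sum over subsets of `R`, weight `1 / (|R| choose |S|)` -/
def E {V : Type*} (R : Finset V) (φ : Finset V → ℚ) : ℚ :=
  ∑ S ∈ R.powerset, φ S / (R.card.choose S.card : ℚ)

open Classical in
/-- indicator of failure -/
noncomputable def Fail {V : Type*} (f : Finset V → Prop) : Finset V → ℚ :=
  fun S => if f S then 0 else 1

/-- disjoint occurrence -/
def comp {V : Type*} [DecidableEq V] (f g : Finset V → Prop) : Finset V → Prop :=
  fun S => ∃ S1, S1 ⊆ S ∧ f S1 ∧ g (S \ S1)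

/-- labelled rooted trees: `graft A B` has the root of `B`, with `A` attached as a new child subtree -/
inductive RT (W : Type*) where
  | node : W → RT W
  | graft : RT W → RT W → RT W

namespace RT

variable {W : Type*}

def root : RT W → W
  | node w => w
  | graft _ B => root B

def size : RT W → ℕ
  | node _ => 0
  | graft A B => size A + size B + 1

def verts [DecidableEq W] : RT W → Finset W
  | node w => {w}
  | graft A B => verts A ∪ verts B

def Edge : RT W → W → W → Prop
  | node _, _, _ => False
  | graft A B, a, b => Edge A a b ∨ Edge B a b ∨ (a = root B ∧ b = root A)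

def Good [DecidableEq W] : RT W → Prop
  | node _ => True
  | graft A B => Good A ∧ Good B ∧ Disjoint (verts A) (verts B)

/-- `A` planted at `u` -/
def Plant {V : Type*} [DecidableEq V] (G : SimpleGraph V) (p : V → Finset V → Prop)
    (u : V) (S : Finset V) : Prop :=
  ∃ v, v ∈ S ∧ G.Adj u v ∧ p v (S.erase u)

/-- `t` embeds in `G` with root at `u` and the other vertices in `S` -/
def Emb {V : Type*} [DecidableEq V] (G : SimpleGraph V) : RT W → V → Finset V → Prop
  | node _, _, _ => True
  | graft A B, u, S => comp (Plant G (Emb G A) u) (Emb G B u) S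

end RT

end ES37
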