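import Pool.Agent.Helper37.ES.Defs

set_option autoImplicit false

namespace ES37

open Finset

namespace RT

variable {W : Type*}

theorem extract_root_mem [DecidableEq W] (t : RT W) : t.root ∈ t.verts := by
  induction t with
  | node w => exact Finset.mem_singleton_self w
  | graft A B _ ihB => exact Finset.mem_union_right _ ihB

theorem extract_edge_mem [DecidableEq W] (t : RT W) (a b : W) (h : t.Edge a b) :
    a ∈ t.verts ∧ b ∈ t.verts := by
  induction t with
  | node w => exact h.elim
  | graft A B ihA ihB =>
    rcases h with h | h | ⟨h1, h2⟩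
    · exact ⟨Finset.mem_union_left _ (ihA h).1, Finset.mem_union_left _ (ihA h).2⟩
    · exact ⟨Finset.mem_union_right _ (ihB h).1, Finset.mem_union_right _ (ihB h).2⟩
    · rw [h1, h2]
      exact ⟨Finset.mem_union_right _ (extract_root_mem B),
        Finset.mem_union_left _ (extract_root_mem A)⟩

theorem extract {V : Type*} [DecidableEq V] [DecidableEq W] (G : SimpleGraph V) (t : RT W)
    (ht : t.Good) (u : V) (S : Finset V) (h : t.Emb G u S) :
    ∃ f : W → V, f t.root = u ∧ (∀ w ∈ t.verts, w ≠ t.root → f w ∈ S ∧ f w ≠ u) ∧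
      Set.InjOn f t.verts ∧ (∀ a b, t.Edge a b → G.Adj (f a) (f b)) := by
  induction t generalizing u S with
  | node w =>
    refine ⟨fun _ => u, rfl, ?_, ?_, ?_⟩
    · intro x hx hne
      exact absurd (Finset.mem_singleton.mp hx) hne
    · intro x hx y hy _
      have hx' : x = w := Finset.mem_singleton.mp (by exact_mod_cast hx)
      have hy' : y = w := Finset.mem_singleton.mp (by exact_mod_cast hy)
      rw [hx', hy']
    · intro a b hab
      exact hab.elim
  | graft A B ihA ihB =>
    obtain ⟨hgA, hgB, hdis⟩ := ht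
    obtain ⟨S1, hS1, ⟨v, hv, hadj, hA⟩, hB⟩ := h
    obtain ⟨fA, hA1, hA2, hA3, hA4⟩ := ihA hgA v (S1.erase u) hA
    obtain ⟨fB, hB1, hB2, hB3, hB4⟩ := ihB hgB u (S \ S1) hB
    have hBA : ∀ w ∈ B.verts, w ∉ A.verts := fun w hw hwA =>
      (Finset.disjoint_left.mp hdis) hwA hw
    have hrA := extract_root_mem A
    have hrB := extract_root_mem B
    have hvu : v ≠ u := fun h => by
      rw [h] at hadj
      exact G.loopless.irrefl u hadj
    have hfA : ∀ w ∈ A.verts, fA w ∈ S1 ∧ fA w ≠ u := by
      intro w hw
      by_cases hwr : w = A.root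
      · rw [hwr, hA1]
        exact ⟨hv, hvu⟩
      · have := (hA2 w hw hwr).1
        exact ⟨Finset.mem_of_mem_erase this, Finset.ne_of_mem_erase this⟩
    have hfB : ∀ w ∈ B.verts, fB w = u ∨ fB w ∉ S1 := by
      intro w hw
      by_cases hwr : w = B.root
      · left; rw [hwr, hB1]
      · right
        exact (Finset.mem_sdiff.mp (hB2 w hw hwr).1).2
    have hcross : ∀ a ∈ A.verts, ∀ b ∈ B.verts, fA a ≠ fB b := by
      intro a ha b hb he
      rcases hfB b hb with h1 | h1
      · exact (hfA a ha).2 (he.trans h1)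
      · exact h1 (he ▸ (hfA a ha).1)
    refine ⟨fun w => if w ∈ A.verts then fA w else fB w, ?_, ?_, ?_, ?_⟩
    · show (if B.root ∈ A.verts then fA B.root else fB B.root) = u
      rw [if_neg (hBA _ hrB), hB1]
    · intro w hw hwr
      show (if w ∈ A.verts then fA w else fB w) ∈ S ∧ (if w ∈ A.verts then fA w else fB w) ≠ u
      rcases Finset.mem_union.mp hw with hw1 | hw1
      · rw [if_pos hw1]
        exact ⟨hS1 (hfA w hw1).1, (hfA w hw1).2⟩
      · rw [if_neg (hBA w hw1)]
        have h1 := hB2 w hw1 hwr
        exact ⟨(Finset.mem_sdiff.mp h1.1).1, h1.2⟩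
    · intro a ha b hb hab
      have ha' : a ∈ A.verts ∪ B.verts := by exact_mod_cast ha
      have hb' : b ∈ A.verts ∪ B.verts := by exact_mod_cast hb
      have hab' : (if a ∈ A.verts then fA a else fB a) = (if b ∈ A.verts then fA b else fB b) := hab
      rcases Finset.mem_union.mp ha' with ha1 | ha1
      · rcases Finset.mem_union.mp hb' with hb1 | hb1
        · rw [if_pos ha1, if_pos hb1] at hab'
          exact hA3 (by exact_mod_cast ha1) (by exact_mod_cast hb1) hab'
        · rw [if_pos ha1, if_neg (hBA b hb1)] at hab'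
          exact absurd hab' (hcross a ha1 b hb1)
      · rcases Finset.mem_union.mp hb' with hb1 | hb1
        · rw [if_neg (hBA a ha1), if_pos hb1] at hab'
          exact absurd hab'.symm (hcross b hb1 a ha1)
        · rw [if_neg (hBA a ha1), if_neg (hBA b hb1)] at hab'
          exact hB3 (by exact_mod_cast ha1) (by exact_mod_cast hb1) hab'
    · intro a b hab
      show G.Adj (if a ∈ A.verts then fA a else fB a) (if b ∈ A.verts then fA b else fB b)
      rcases hab with h1 | h1 | ⟨h1, h2⟩
      · have h3 := extract_edge_mem A a b h1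
        rw [if_pos h3.1, if_pos h3.2]
        exact hA4 a b h1
      · have h3 := extract_edge_mem B a b h1
        rw [if_neg (hBA a h3.1), if_neg (hBA b h3.2)]
        exact hB4 a b h1
      · rw [h1, h2, if_neg (hBA _ hrB), if_pos hrA, hA1, hB1]
        exact hadj

end RT

end ES37
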