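import Pool.Agent.Helper37.ES.Ident
import Pool.Agent.Helper37.ES.Extract
import Pool.Agent.Helper37.ES.Exist

set_option autoImplicit false

namespace ES37

open Finset

/-! ### monotonicity -/

theorem E_mono {V : Type*} (R : Finset V) {φ ψ : Finset V → ℚ} (h : ∀ S, S ⊆ R → φ S ≤ ψ S) :
    E R φ ≤ E R ψ := by
  unfold E
  apply Finset.sum_le_sum
  intro S hS
  have := h S (Finset.mem_powerset.1 hS)
  gcongr

theorem Fail_nonneg {V : Type*} (f : Finset V → Prop) (S : Finset V) : 0 ≤ Fail f S := by
  unfold Fail; split_ifs <;> norm_num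

theorem Fail_le_one {V : Type*} (f : Finset V → Prop) (S : Finset V) : Fail f S ≤ 1 := by
  unfold Fail; split_ifs <;> norm_num

theorem Fail_mono {V : Type*} {f g : Finset V → Prop} {S T : Finset V} (h : f S → g T) :
    Fail g T ≤ Fail f S := by
  unfold Fail
  by_cases hf : f S
  · simp [hf, h hf]
  · simp only [hf, if_false]
    split_ifs <;> norm_num

theorem E_nonneg {V : Type*} (R : Finset V) {φ : Finset V → ℚ} (h : ∀ S, 0 ≤ φ S) :
    0 ≤ E R φ := by
  unfold E
  apply Finset.sum_nonneg
  intro S _
  have := h S
  positivity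

/-! ### gluing -/

theorem glue_aux {V : Type*} [DecidableEq V] (r : ℕ) : ∀ (R : Finset V), R.card = r →
    ∀ (f g : Finset V → Prop), E R (Fail (comp f g)) ≤ E R (Fail f) + E R (Fail g) := by
  induction r with
  | zero =>
    intro R hR f g
    rw [Finset.card_eq_zero] at hR
    subst hR
    simp only [E, Finset.powerset_empty, Finset.sum_singleton, Finset.card_empty,
      Nat.choose_self, Nat.cast_one, div_one]
    by_cases hf : f ∅
    · have : Fail (comp f g) ∅ ≤ Fail g ∅ := by
        apply Fail_mono
        intro hg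
        exact ⟨∅, le_rfl, hf, by simpa using hg⟩
      have := Fail_nonneg f ∅
      linarith
    · have : Fail f ∅ = 1 := by simp [Fail, hf]
      have h1 := Fail_nonneg g ∅
      have h2 := Fail_le_one (comp f g) ∅
      linarith
  | succ r ih =>
    intro R hR f g
    by_cases hf : f ∅
    · have h1 : E R (Fail (comp f g)) ≤ E R (Fail g) := by
        apply E_mono
        intro S _
        apply Fail_mono
        intro hg
        exact ⟨∅, Finset.empty_subset _, hf, by simpa using hg⟩
      have h2 : 0 ≤ E R (Fail f) := E_nonneg R (Fail_nonneg f)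
      linarith
    · have hcard : (R.card : ℚ) = r + 1 := by rw [hR]; push_cast; ring
      have k1 := E_first R (Fail (comp f g))
      have k2 := E_first R (Fail f)
      have k3 := E_last R (Fail g)
      have k4 : ∑ x ∈ R, E (R.erase x) (fun S => Fail (comp f g) (insert x S)) ≤
          ∑ x ∈ R, (E (R.erase x) (fun S => Fail f (insert x S)) + E (R.erase x) (Fail g)) := by
        apply Finset.sum_le_sum
        intro x hx
        have hc : (R.erase x).card = r := by rw [Finset.card_erase_of_mem hx, hR]; rfl
        have := ih (R.erase x) hc (fun S => f (insert x S)) g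
        refine le_trans ?_ (this.trans ?_)
        · apply E_mono
          intro S hS
          apply Fail_mono
          rintro ⟨S1, h1, h2, h3⟩
          refine ⟨insert x S1, Finset.insert_subset_insert x h1, h2, ?_⟩
          have hxS : x ∉ S := fun h => by simpa using hS h
          have : insert x S \ insert x S1 = S \ S1 := by
            ext y
            simp only [Finset.mem_sdiff, Finset.mem_insert, not_or]
            constructor
            · rintro ⟨h | h, h4, h5⟩
              · exact absurd h h4
              · exact ⟨h, h5⟩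
            · rintro ⟨h, h5⟩
              exact ⟨Or.inr h, fun h6 => hxS (h6 ▸ h), h5⟩
          rw [this]; exact h3
        · apply le_of_eq
          rfl
      rw [Finset.sum_add_distrib, k1, k2, k3] at k4
      have f0 : Fail f ∅ = 1 := by simp [Fail, hf]
      have f1 := Fail_le_one (comp f g) ∅
      have f2 := Fail_nonneg g R
      rw [f0] at k4
      have hpos : (0:ℚ) < R.card := by rw [hcard]; positivity
      have : (R.card : ℚ) * (E R (Fail (comp f g)) - Fail (comp f g) ∅) ≤
        (R.card : ℚ) * ((E R (Fail f) - 1) + (E R (Fail g) - Fail g R)) := by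
          rw [mul_add]; exact k4
      have := le_of_mul_le_mul_left this hpos
      linarith

theorem glue {V : Type*} [DecidableEq V] (R : Finset V) (f g : Finset V → Prop) :
    E R (Fail (comp f g)) ≤ E R (Fail f) + E R (Fail g) := glue_aux _ R rfl f g

/-! ### planting -/

theorem plant {V : Type*} [DecidableEq V] [Fintype V] (G : SimpleGraph V) [DecidableRel G.Adj]
    (p q : V → Finset V → Prop)
    (hp : ∀ v S T, S ⊆ T → p v S → p v T) (hq : ∀ v S T, S ⊆ T → q v S → q v T)
    (h : ∀ u v S, G.Adj u v → p v (S.erase u) → q u (insert v S)) :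
    ∑ u, ((G.degree u : ℚ) + 1) * E univ (Fail (q u)) ≤
      ∑ v, ((G.degree v : ℚ) + 1) * E univ (Fail (p v)) +
        (Fintype.card V : ℚ) * ((Fintype.card V : ℚ) + 1) := by
  -- arc inequality
  have harc : ∑ u, ∑ v ∈ G.neighborFinset u, E univ (fun S => Fail (q u) (insert v S)) ≤
      ∑ v, ∑ u ∈ G.neighborFinset v, E univ (fun S => Fail (p v) (S.erase u)) := by
    have : ∑ v, ∑ u ∈ G.neighborFinset v, E univ (fun S => Fail (p v) (S.erase u)) =
      ∑ u, ∑ v ∈ G.neighborFinset u, E univ (fun S => Fail (p v) (S.erase u)) := by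
      apply Finset.sum_comm'
      intro x y
      simp [SimpleGraph.adj_comm]
    rw [this]
    apply Finset.sum_le_sum
    intro u _
    apply Finset.sum_le_sum
    intro v hv
    apply E_mono
    intro S _
    apply Fail_mono
    intro hh
    exact h u v S (by simpa using hv) hh
  have hL : ∀ u, ((G.degree u : ℚ) + 1) * E univ (Fail (q u)) - ((Fintype.card V : ℚ) + 1) ≤
      ∑ v ∈ G.neighborFinset u, E univ (fun S => Fail (q u) (insert v S)) := by
    intro u
    have e1 := E_up (univ : Finset V) (Fail (q u))
    have e2 : ∑ v ∈ G.neighborFinset u, (E univ (Fail (q u)) -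
        E univ (fun S => Fail (q u) (insert v S))) ≤
        ∑ v ∈ (univ : Finset V), (E univ (Fail (q u)) -
          E univ (fun S => Fail (q u) (insert v S))) := by
      apply Finset.sum_le_sum_of_subset_of_nonneg (Finset.subset_univ _)
      intro x _ _
      have : E univ (fun S => Fail (q u) (insert x S)) ≤ E univ (Fail (q u)) := by
        apply E_mono
        intro S _
        apply Fail_mono
        exact hq u S _ (Finset.subset_insert _ _)
      linarith
    rw [e1, Finset.sum_sub_distrib, Finset.sum_const, SimpleGraph.card_neighborFinset_eq_degree,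
      nsmul_eq_mul, Finset.card_univ] at e2
    have e3 := Fail_le_one (q u) ∅
    have e4 : (0:ℚ) ≤ (Fintype.card V : ℚ) + 1 := by positivity
    nlinarith
  have hR : ∀ v, ∑ u ∈ G.neighborFinset v, E univ (fun S => Fail (p v) (S.erase u)) ≤
      ((G.degree v : ℚ) + 1) * E univ (Fail (p v)) := by
    intro v
    have e1 := E_down (univ : Finset V) (Fail (p v))
    have e2 : ∑ u ∈ G.neighborFinset v, (E univ (fun S => Fail (p v) (S.erase u)) -
        E univ (Fail (p v))) ≤
        ∑ u ∈ (univ : Finset V), (E univ (fun S => Fail (p v) (S.erase u)) -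
        E univ (Fail (p v))) := by
      apply Finset.sum_le_sum_of_subset_of_nonneg (Finset.subset_univ _)
      intro x _ _
      have : E univ (Fail (p v)) ≤ E univ (fun S => Fail (p v) (S.erase x)) := by
        apply E_mono
        intro S _
        apply Fail_mono
        exact hp v _ _ (Finset.erase_subset _ _)
      linarith
    rw [e1, Finset.sum_sub_distrib, Finset.sum_const, SimpleGraph.card_neighborFinset_eq_degree,
      nsmul_eq_mul, Finset.card_univ] at e2
    have e3 := Fail_nonneg (p v) univ
    have e4 : (0:ℚ) ≤ (Fintype.card V : ℚ) + 1 := by positivity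
    nlinarith [mul_nonneg e4 e3]
  have s1 := Finset.sum_le_sum (s := (univ : Finset V)) (fun u _ => hL u)
  have s2 := Finset.sum_le_sum (s := (univ : Finset V)) (fun v _ => hR v)
  rw [Finset.sum_sub_distrib, Finset.sum_const, nsmul_eq_mul, Finset.card_univ] at s1
  linarith

/-! ### cost of a tree -/

namespace RT

variable {W V : Type*} [DecidableEq V]

theorem comp_mono {f g : Finset V → Prop} (hg : ∀ S T, S ⊆ T → g S → g T) (S T : Finset V)
    (h : S ⊆ T) (hc : comp f g S) : comp f g T := by
  obtain ⟨S1, h1, h2, h3⟩ := hc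
  exact ⟨S1, h1.trans h, h2, hg _ _ (Finset.sdiff_subset_sdiff h le_rfl) h3⟩

theorem Plant_mono {G : SimpleGraph V} {p : V → Finset V → Prop}
    (hp : ∀ v S T, S ⊆ T → p v S → p v T) (u : V) (S T : Finset V) (h : S ⊆ T)
    (hc : Plant G p u S) : Plant G p u T := by
  obtain ⟨v, h1, h2, h3⟩ := hc
  exact ⟨v, h h1, h2, hp _ _ _ (Finset.erase_subset_erase _ h) h3⟩

theorem Emb_mono (G : SimpleGraph V) (t : RT W) : ∀ (u : V) (S T : Finset V), S ⊆ T →
    t.Emb G u S → t.Emb G u T := by
  induction t with
  | node w => intro u S T _ _; trivial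
  | graft A B _ ihB =>
    intro u S T h hS
    exact comp_mono (ihB u) S T h hS

theorem cost [Fintype V] (G : SimpleGraph V) [DecidableRel G.Adj] (t : RT W) :
    ∑ u, ((G.degree u : ℚ) + 1) * E univ (Fail (t.Emb G u)) ≤
      (t.size : ℚ) * ((Fintype.card V : ℚ) * ((Fintype.card V : ℚ) + 1)) := by
  induction t with
  | node w =>
    have : ∀ u, E univ (Fail ((node w : RT W).Emb G u)) = 0 := by
      intro u
      simp [E, Fail, Emb]
    simp [this, size]
  | graft A B ihA ihB =>
    have h1 := plant G (A.Emb G) (Plant G (A.Emb G)) (A.Emb_mono G)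
      (Plant_mono (A.Emb_mono G)) (by
        intro u v S huv hE
        refine ⟨v, Finset.mem_insert_self _ _, huv, A.Emb_mono G v _ _ ?_ hE⟩
        exact Finset.erase_subset_erase _ (Finset.subset_insert _ _))
    have h2 : ∑ u, ((G.degree u : ℚ) + 1) * E univ (Fail ((graft A B).Emb G u)) ≤
        ∑ u, ((G.degree u : ℚ) + 1) * E univ (Fail (Plant G (A.Emb G) u)) +
        ∑ u, ((G.degree u : ℚ) + 1) * E univ (Fail (B.Emb G u)) := by
      rw [← Finset.sum_add_distrib]
      apply Finset.sum_le_sum
      intro u _
      rw [← mul_add]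
      apply mul_le_mul_of_nonneg_left _ (by positivity)
      exact glue univ _ _
    have h3 : ((graft A B).size : ℚ) = A.size + B.size + 1 := by simp [size]
    rw [h3]
    linarith

end RT

theorem E_one {V : Type*} [DecidableEq V] (R : Finset V) : E R (fun _ => 1) = (R.card : ℚ) + 1 := by
  have := E_up R (fun _ => 1)
  simp at this
  linarith

/-- Erdős–Sós for labelled rooted trees -/
theorem main_RT {V W : Type*} [DecidableEq V] [Fintype V] (G : SimpleGraph V) [DecidableRel G.Adj]
    (t : RT W) (hpos : 0 < G.edgeFinset.card)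
    (h : (t.size - 1) * Fintype.card V < 2 * G.edgeFinset.card) :
    ∃ u, t.Emb G u univ := by
  by_contra hcon
  push Not at hcon
  have hall : ∀ u, E univ (Fail (t.Emb G u)) = (Fintype.card V : ℚ) + 1 := by
    intro u
    have : Fail (t.Emb G u) = fun _ => 1 := by
      funext S
      have : ¬ t.Emb G u S := fun hh => hcon u (t.Emb_mono G u S univ (Finset.subset_univ _) hh)
      simp [Fail, this]
    rw [this, E_one, Finset.card_univ]
  have hc := t.cost G
  simp only [hall] at hc
  rw [← Finset.sum_mul, Finset.sum_add_distrib] at hc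
  have hdeg : ∑ u, (G.degree u : ℚ) = 2 * G.edgeFinset.card := by
    exact_mod_cast G.sum_degrees_eq_twice_card_edges
  rw [hdeg] at hc
  simp only [Finset.sum_const, nsmul_eq_mul, Finset.card_univ, mul_one] at hc
  have hn : (0:ℚ) < (Fintype.card V : ℚ) + 1 := by positivity
  rw [← mul_assoc] at hc
  have hc2 := le_of_mul_le_mul_right hc hn
  have hc3 : 2 * G.edgeFinset.card + Fintype.card V ≤ t.size * Fintype.card V := by
    exact_mod_cast hc2
  rcases Nat.eq_zero_or_pos t.size with h0 | h0
  · rw [h0] at hc3
    omega
  · obtain ⟨s, hs⟩ : ∃ s, t.size = s + 1 := ⟨t.size - 1, by omega⟩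
    rw [hs] at h hc3
    simp only [Nat.add_sub_cancel] at h
    rw [add_mul] at hc3
    omega

/-- Erdős–Sós -/
theorem erdos_sos {V W : Type*} [DecidableEq V] [Fintype V] [Fintype W] [DecidableEq W]
    (G : SimpleGraph V) [DecidableRel G.Adj] (k : ℕ)
    (h : (k - 1) * Fintype.card V < 2 * G.edgeFinset.card)
    (T : SimpleGraph W) (hT : T.IsTree) (hW : Fintype.card W = k + 1) :
    ∃ f : W ↪ V, ∀ a b : W, T.Adj a b → G.Adj (f a) (f b) := by
  obtain ⟨t, h1, h2, h3, h4⟩ := exists_RT T hT
  have hk : t.size = k := by omega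
  have hpos : 0 < G.edgeFinset.card := by
    rcases Nat.eq_zero_or_pos G.edgeFinset.card with h0 | h0
    · rw [h0] at h; simp at h
    · exact h0
  obtain ⟨u, hu⟩ := main_RT G t hpos (by rw [hk]; exact h)
  obtain ⟨f, -, -, hinj, hedge⟩ := RT.extract G t h1 u univ hu
  rw [h2, Finset.coe_univ, Set.injOn_univ] at hinj
  refine ⟨⟨f, hinj⟩, fun a b hab => ?_⟩
  rcases h3 a b hab with hh | hh
  · exact hedge a b hh
  · exact (hedge b a hh).symm

end ES37
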